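import Pool.Agent.Lib.Pf91712.Defs

/-!
# Parameterized counting classes with `h k * L (log n)` guess bits

The definitions of `Pool.Agent.Lib.Pf91712.Defs` with `L (⌊log₂ |x|⌋)` in place of `⌊log₂ |x|⌋` in the
length of the guesses.
-/

set_option autoImplicit false

namespace Pool.Agent.Lib.Pf91712g

open Pool.Agent.Lib.Pa76659 (Str Lang Prog Halts accepts)
open Pool.Agent.Lib.Pf91712 (inp3)

/-- The number of strings `z` of length `h k * L ⌊log₂ |x|⌋` such that the program `M` with oracle
`O`, started on `(x, k, z)`, accepts after `f k * (|x| + 1) ^ c` steps. -/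
noncomputable def cnt (L : ℕ → ℕ) (O : Lang) (M : Prog) (f h : ℕ → ℕ) (c : ℕ) (x : Str) (k : ℕ) : ℕ :=
  Nat.card {z : Str // z.length = h k * L (Nat.log 2 x.length) ∧
    accepts O M (inp3 x k z) (f k * (x.length + 1) ^ c) = true}

/-- The parameterized counting class with `h k * L ⌊log₂ |x|⌋` guess bits relative to the oracle `O`:
the functions counting the accepting guesses of `h k * L ⌊log₂ |x|⌋` bits of an oracle machine which
runs in time `f k * (|x| + 1) ^ c`. For `L m = m` this is `#W[P]` relative to `O` (machine form). -/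
def SharpL (L : ℕ → ℕ) (O : Lang) : Set (Str → ℕ → ℕ) :=
  {F | ∃ (M : Prog) (f h : ℕ → ℕ) (c : ℕ), ∀ (x : Str) (k : ℕ),
    (∀ z : Str, z.length = h k * L (Nat.log 2 x.length) →
      Halts O M (inp3 x k z) (f k * (x.length + 1) ^ c)) ∧ F x k = cnt L O M f h c x k}

end Pool.Agent.Lib.Pf91712g
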