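import Pool.Agent.Lib.Pf91712g.Defs
import Pool.Agent.Lib.Pf91712.Emb2

/-!
# The oracle queries of the machine are counting queries

`Pf91712.emb2` with the guess length `h k * L ⌊log₂ n⌋`.
-/

set_option autoImplicit false

namespace Pool.Agent.Lib.Pf91712g

open Pool.Agent.Lib.Pa76659 (Str Lang Prog Halts accepts join DT)
open Pool.Agent.Lib.Pf91712 (CQ cqConst cqConst_dep cqConst_val cq_count qin_univ unary_length
  unary bitsOf inp3)

theorem emb_aux {E : Type} (L : ℕ → ℕ) (sub : Str → DT E Bool) (hsub : ∀ s, (sub s).depth ≤ 1)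
    (M' : Prog) (f h : ℕ → ℕ) (c' g B Fm d w : ℕ) (hF : ∀ k', k' ≤ g → f k' ≤ Fm)
    (hd1 : 1 ≤ d) (hd : Fm * (B + 1) ^ c' ≤ d) (hw0 : 0 < w)
    (hw : ∀ k', k' ≤ g → ∀ y : Str, y.length ≤ B → 2 ^ (h k' * L (Nat.log 2 y.length)) ≤ w) (p : Str) :
    ∃ q : CQ E w, q.Dep d ∧ ∀ ζ : E → Bool, p.length ≤ B →
        q.val ζ = join (fun s => (sub s).eval ζ)
          (bitsOf (cnt L (fun s => (sub s).eval ζ) M' f h c') g) p := by
  classical
  match p with
  | [] => exact ⟨cqConst E w false, cqConst_dep _ _ _ _, fun ζ _ => rfl⟩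
  | false :: v =>
      refine ⟨⟨fun n => decide (0 < n), fun _ => sub v⟩, fun z => (hsub v).trans hd1,
        fun ζ _ => ?_⟩
      show decide (0 < (Finset.univ.filter fun _ : Fin w => (sub v).eval ζ = true).card) =
        (sub v).eval ζ
      cases hv : (sub v).eval ζ with
      | true => simpa using hw0
      | false => simp
  | true :: v =>
      by_cases hg : (unary v).1 ≤ g
      swap
      · refine ⟨cqConst E w false, cqConst_dep _ _ _ _, fun ζ _ => ?_⟩
        rw [cqConst_val]
        show false = bitsOf _ g v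
        simp [bitsOf, hg]
      by_cases hB : (true :: v).length ≤ B
      swap
      · exact ⟨cqConst E w false, cqConst_dep _ _ _ _, fun ζ h' => absurd h' hB⟩
      set k' := (unary v).1 with hk'
      set i := (unary (unary v).2).1 with hi
      set y := (unary (unary v).2).2 with hy
      have hyB : y.length ≤ B := by
        have h1 := unary_length v
        have h2 := unary_length (unary v).2
        rw [← hy] at h2
        simp only [List.length_cons] at hB
        omega
      have hl : 2 ^ (h k' * L (Nat.log 2 y.length)) ≤ w := hw k' hg y hyB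
      obtain ⟨D, hD1, hD2⟩ := cq_count sub w (h k' * L (Nat.log 2 y.length)) hl
        (fun z => Pool.Agent.Lib.Pa76659.accTree M' (inp3 y k' z) (f k' * (y.length + 1) ^ c'))
      refine ⟨⟨fun n => n.testBit i, D⟩, fun j => ?_, fun ζ _ => ?_⟩
      · rcases hD1 j with hj | ⟨z, -, hj⟩
        · show (D j).depth ≤ d
          rw [hj]
          simp [DT.depth]
        · show (D j).depth ≤ d
          rw [hj]
          have h1 := DT.depth_subst sub Set.univ 1 (fun s _ => hsub s)
            (Pool.Agent.Lib.Pa76659.accTree M' (inp3 y k' z) (f k' * (y.length + 1) ^ c'))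
            (qin_univ _)
          have h2 := Pool.Agent.Lib.Pa76659.accTree_depth M' (inp3 y k' z)
            (f k' * (y.length + 1) ^ c')
          have h3 : f k' * (y.length + 1) ^ c' ≤ Fm * (B + 1) ^ c' :=
            Nat.mul_le_mul (hF k' hg) (Nat.pow_le_pow_left (by omega) _)
          omega
      · show ((Finset.univ.filter fun j => (D j).eval ζ = true).card).testBit i = bitsOf _ g v
        rw [hD2 ζ]
        unfold bitsOf cnt
        rw [← hk', ← hi, ← hy, decide_eq_true hg, Bool.true_and]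
        simp only [Pool.Agent.Lib.Pa76659.accTree_eval]

theorem emb {E : Type} (L : ℕ → ℕ) (sub : Str → DT E Bool) (hsub : ∀ s, (sub s).depth ≤ 1)
    (M' : Prog) (f h : ℕ → ℕ) (c' g B Fm d w : ℕ) (hF : ∀ k', k' ≤ g → f k' ≤ Fm)
    (hd1 : 1 ≤ d) (hd : Fm * (B + 1) ^ c' ≤ d) (hw0 : 0 < w)
    (hw : ∀ k', k' ≤ g → ∀ y : Str, y.length ≤ B → 2 ^ (h k' * L (Nat.log 2 y.length)) ≤ w) :
    ∃ cq : Str → CQ E w, (∀ p, (cq p).Dep d) ∧
      ∀ (ζ : E → Bool) (p : Str), p.length ≤ B →
        (cq p).val ζ = join (fun s => (sub s).eval ζ)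
          (bitsOf (cnt L (fun s => (sub s).eval ζ) M' f h c') g) p := by
  choose cq h1 h2 using emb_aux L sub hsub M' f h c' g B Fm d w hF hd1 hd hw0 hw
  exact ⟨cq, h1, fun ζ p hp => h2 p ζ hp⟩

end Pool.Agent.Lib.Pf91712g
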