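import Pool.Agent.Lib.Pf91712.Asym
import Pool.Agent.Lib.Pf91712.MNum

/-!
# The numerical conditions with `o(m² / log m)` guess bits
-/

set_option autoImplicit false

namespace Pool.Agent.Lib.Pf91712g

open Pool.Agent.Lib.Pf91712

/-- `L m = o(m² / log m)` -/
def Small (L : ℕ → ℕ) : Prop := ∀ C : ℕ, ∃ m0 : ℕ, ∀ m, m0 ≤ m → C * L m * Nat.log 2 m ≤ m ^ 2

theorem sq_le_two_pow : ∀ a : ℕ, 4 ≤ a → a ^ 2 ≤ 2 ^ a := by
  intro a ha
  induction a, ha using Nat.le_induction with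
  | base => norm_num
  | succ n hn ih =>
      rw [pow_succ 2 n]
      nlinarith

/-- logarithms are small -/
theorem log_small (A B : ℕ) : ∃ m1 : ℕ, ∀ m, m1 ≤ m → A * Nat.log 2 m + B ≤ m := by
  refine ⟨2 ^ (A + B + 4), fun m hm => ?_⟩
  have hm0 : m ≠ 0 := by
    have : 0 < 2 ^ (A + B + 4) := by positivity
    omega
  have h1 : A + B + 4 ≤ Nat.log 2 m := (Nat.le_log_iff_pow_le (by norm_num) hm0).2 hm
  have h2 : 2 ^ Nat.log 2 m ≤ m := Nat.pow_log_le_self 2 hm0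
  have h3 := sq_le_two_pow (Nat.log 2 m) (by omega)
  nlinarith

theorem le_log_of (n m : ℕ) (hm : 2 ^ n ≤ m) : n ≤ Nat.log 2 m := by
  have hm0 : m ≠ 0 := by
    have : 0 < 2 ^ n := by positivity
    omega
  exact (Nat.le_log_iff_pow_le (by norm_num) hm0).2 hm

theorem log_sq (j : ℕ) : Nat.log 2 (j * j) ≤ 2 * Nat.log 2 j + 1 := by
  rcases Nat.eq_zero_or_pos j with rfl | hj
  · simp
  · have h1 : j < 2 ^ (Nat.log 2 j + 1) := Nat.lt_pow_succ_log_self (by norm_num) j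
    have h2 : j * j < 2 ^ (2 * Nat.log 2 j + 2) := by
      have e : 2 ^ (2 * Nat.log 2 j + 2) = 2 ^ (Nat.log 2 j + 1) * 2 ^ (Nat.log 2 j + 1) := by
        rw [← pow_add]; congr 1; ring
      rw [e]
      exact Nat.mul_lt_mul_of_lt_of_le h1 h1.le (by positivity)
    have h3 := Nat.log_lt_of_lt_pow (by positivity) h2
    omega

/-- the maximum of `L` on `[0, b m]` is small as well -/
theorem small_sup (L : ℕ → ℕ) (hL : Small L) (H b : ℕ) (hb : 1 ≤ b) :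
    Small (fun m => H * (Finset.range (b * m + 1)).sup L) := by
  intro C
  obtain ⟨j0, hj0⟩ := hL (3 * (C * H) * b ^ 2 + 1)
  obtain ⟨m1, hm1⟩ := log_small (C * H * ((Finset.range (j0 + 2)).sup L + 1)) 1
  refine ⟨m1, fun m hm => ?_⟩
  have h1 := hm1 m hm
  have hmpos : 1 ≤ m := by omega
  have key : ∀ j, j ≤ b * m → C * H * L j * Nat.log 2 m ≤ m ^ 2 := by
    intro j hj
    by_cases hjj : j < j0 + 2
    · have h2 : L j ≤ (Finset.range (j0 + 2)).sup L := Finset.le_sup (Finset.mem_range.2 hjj)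
      calc C * H * L j * Nat.log 2 m
          ≤ C * H * ((Finset.range (j0 + 2)).sup L + 1) * Nat.log 2 m := by gcongr; omega
        _ ≤ m := by omega
        _ ≤ m ^ 2 := by nlinarith
    · push Not at hjj
      have h3 := hj0 j (by omega)
      have hlj : 1 ≤ Nat.log 2 j := le_log_of 1 j (by omega)
      by_cases hs : j * j ≤ m
      · have h4 : L j ≤ m := by
          have : L j ≤ (3 * (C * H) * b ^ 2 + 1) * L j * Nat.log 2 j := by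
            have h5 : 1 ≤ (3 * (C * H) * b ^ 2 + 1) * Nat.log 2 j :=
              Nat.mul_pos (Nat.succ_pos _) hlj
            calc L j = L j * 1 := (mul_one _).symm
              _ ≤ L j * ((3 * (C * H) * b ^ 2 + 1) * Nat.log 2 j) := Nat.mul_le_mul_left _ h5
              _ = _ := by ring
          nlinarith
        have h6 : C * H * Nat.log 2 m ≤ m := by
          calc C * H * Nat.log 2 m ≤ C * H * ((Finset.range (j0 + 2)).sup L + 1) * Nat.log 2 m := by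
                nlinarith [Nat.zero_le (C * H * ((Finset.range (j0 + 2)).sup L) * Nat.log 2 m)]
            _ ≤ m := by omega
        calc C * H * L j * Nat.log 2 m = L j * (C * H * Nat.log 2 m) := by ring
          _ ≤ m * m := Nat.mul_le_mul h4 h6
          _ = m ^ 2 := by ring
      · push Not at hs
        have h7 : Nat.log 2 m ≤ 3 * Nat.log 2 j := by
          have := (Nat.log_mono_right (b := 2) hs.le).trans (log_sq j)
          omega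
        have h8 : b ^ 2 * (C * H * L j * Nat.log 2 m) ≤ b ^ 2 * m ^ 2 := by
          calc b ^ 2 * (C * H * L j * Nat.log 2 m)
              ≤ b ^ 2 * (C * H * L j * (3 * Nat.log 2 j)) := by gcongr
            _ ≤ (3 * (C * H) * b ^ 2 + 1) * L j * Nat.log 2 j := by
                nlinarith [Nat.zero_le (L j * Nat.log 2 j)]
            _ ≤ j ^ 2 := h3
            _ ≤ (b * m) ^ 2 := Nat.pow_le_pow_left hj 2
            _ = b ^ 2 * m ^ 2 := by ring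
        exact Nat.le_of_mul_le_mul_left h8 (by positivity)
  have hne : (Finset.range (b * m + 1)).Nonempty := ⟨0, Finset.mem_range.2 (by omega)⟩
  obtain ⟨j, hj, hj2⟩ := Finset.exists_mem_eq_sup (Finset.range (b * m + 1)) hne L
  have h9 := key j (by rw [Finset.mem_range] at hj; omega)
  show C * (H * (Finset.range (b * m + 1)).sup L) * Nat.log 2 m ≤ m ^ 2
  rw [hj2]
  calc _ = C * H * L j * Nat.log 2 m := by ring
    _ ≤ _ := h9

theorem q2 (c2 c3 k τ W m t d w : ℕ) (hk : 2 * c2 + 3 ≤ k) (hτm : τ + 4 ≤ m)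
    (hW : c3 * m + W ≤ τ * m)
    (ht : t ≤ 2 ^ (c3 * m)) (hd : d ≤ 2 ^ (c2 * m)) (hw : w ≤ 2 ^ W) :
    2 * (t * w * (d + 1) ^ (2 * τ + 1)) ≤ (2 ^ (k * m - (τ + 2))) ^ (τ + 1) := by
  have hd1 : d + 1 ≤ 2 ^ (c2 * m + 1) := by
    have : 1 ≤ 2 ^ (c2 * m) := Nat.one_le_two_pow
    rw [pow_succ]; omega
  have h1 : 2 * (t * w * (d + 1) ^ (2 * τ + 1)) ≤
      2 ^ (1 + (c3 * m + W) + (c2 * m + 1) * (2 * τ + 1)) := by
    calc 2 * (t * w * (d + 1) ^ (2 * τ + 1))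
        ≤ 2 * (2 ^ (c3 * m) * 2 ^ W * (2 ^ (c2 * m + 1)) ^ (2 * τ + 1)) := by
          gcongr
      _ = 2 ^ (1 + (c3 * m + W) + (c2 * m + 1) * (2 * τ + 1)) := by
          rw [← pow_mul, ← pow_add, ← pow_add, ← pow_succ']
          congr 1; ring
  refine h1.trans ?_
  rw [← pow_mul]
  apply Nat.pow_le_pow_right (by norm_num)
  have hkm : (2 * c2 + 3) * m ≤ k * m := Nat.mul_le_mul_right _ hk
  have h2 : τ + 2 ≤ k * m := by nlinarith
  obtain ⟨e, he⟩ := Nat.exists_eq_add_of_le h2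
  have h3 : k * m - (τ + 2) = e := by omega
  rw [h3]
  rw [he] at hkm
  have h4 : (2 * c2 + 3) * m * (τ + 1) ≤ (τ + 2 + e) * (τ + 1) := Nat.mul_le_mul_right _ hkm
  have h5 : (τ + 1) * (τ + 4) ≤ (τ + 1) * m := Nat.mul_le_mul_left _ hτm
  nlinarith [Nat.zero_le (c2 * m), Nat.zero_le (τ * m)]

/-- the main number: `2 * (...) * (4 (τ + 2)) ^ (τ + 2) < 2 ^ m` -/
theorem q3 (k c3 : ℕ) (W : ℕ → ℕ) (hW : Small W) : ∃ m0 : ℕ, ∀ m, m0 ≤ m →
    2 * (1 + (2 * k * m + 1) * (2 * ((c3 + 1 + W m / m) + 1)) +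
      (W m + 1) * 2 ^ ((c3 + 1 + W m / m) + 2)) * (4 * ((c3 + 1 + W m / m) + 2)) ^
        ((c3 + 1 + W m / m) + 2) < 2 ^ m ∧ (c3 + 1 + W m / m) + 4 ≤ m := by
  obtain ⟨j0, hj0⟩ := hW 12
  obtain ⟨j1, hj1⟩ := log_small (2 * (c3 + 3 + 4)) (2 * ((2 * k + 6) + 4 * (c3 + 3 + 4) + 4) + 8 * (c3 + 8))
  refine ⟨max (max j0 j1) 16, fun m hm => ?_⟩
  have hm0 : j0 ≤ m := (le_max_left _ _).trans ((le_max_left _ _).trans hm)
  have hm1 : j1 ≤ m := (le_max_right _ _).trans ((le_max_left _ _).trans hm)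
  have hm2 : 16 ≤ m := (le_max_right _ _).trans hm
  have h0 := hj0 m hm0
  have h1 := hj1 m hm1
  obtain ⟨a, ha⟩ : ∃ a, a = Nat.log 2 m := ⟨_, rfl⟩
  rw [← ha] at h0 h1
  have ha4 : 4 ≤ a := ha ▸ le_log_of 4 m (by norm_num; exact hm2)
  obtain ⟨q, hq⟩ : ∃ q, q = W m / m := ⟨_, rfl⟩
  rw [← hq]
  have hq1 : q * m ≤ W m := hq ▸ Nat.div_mul_le_self _ _
  have hq2 : W m < (q + 1) * m := by
    rw [hq]
    have := Nat.lt_div_mul_add (a := W m) (b := m) (by omega)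
    linarith
  have h3 : 12 * q * a ≤ m := by
    have h4 : m * (12 * q * a) ≤ m * m := by
      calc m * (12 * q * a) = 12 * (q * m) * a := by ring
        _ ≤ 12 * W m * a := by gcongr
        _ ≤ m ^ 2 := h0
        _ = m * m := by ring
    exact Nat.le_of_mul_le_mul_left h4 (by omega)
  have hqm : 48 * q ≤ m := by nlinarith
  have h5 : c3 + 1 + q + 4 ≤ m := by omega
  refine ⟨?_, h5⟩
  have hma : m < 2 ^ (a + 1) := ha ▸ Nat.lt_pow_succ_log_self (by norm_num) m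
  obtain ⟨τ, hτ⟩ : ∃ τ, τ = c3 + 1 + q := ⟨_, rfl⟩
  rw [← hτ]
  have hWm : W m + 1 ≤ m ^ 2 := by
    have : W m ≤ 12 * W m * a := by nlinarith
    have h6 : 12 * W m * a ≤ m ^ 2 := h0
    by_cases hz : W m = 0
    · rw [hz]; nlinarith
    · nlinarith [Nat.pos_of_ne_zero hz]
  have e1 : 1 + (2 * k * m + 1) * (2 * (τ + 1)) + (W m + 1) * 2 ^ (τ + 2) ≤
      2 ^ (τ + 2) * ((2 * k + 3) * m ^ 2) := by
    have f1 : 2 * (τ + 1) ≤ 2 ^ (τ + 2) := by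
      rw [pow_succ 2 (τ + 1)]
      have : τ + 1 < 2 ^ (τ + 1) := Nat.lt_two_pow_self
      omega
    have f2 : 1 ≤ 2 ^ (τ + 2) := Nat.one_le_two_pow
    have f3 : m ≤ m ^ 2 := by nlinarith
    calc 1 + (2 * k * m + 1) * (2 * (τ + 1)) + (W m + 1) * 2 ^ (τ + 2)
        ≤ 2 ^ (τ + 2) * 1 + (2 * k * m ^ 2 + 1) * 2 ^ (τ + 2) + m ^ 2 * 2 ^ (τ + 2) := by
          gcongr
          omega
      _ = 2 ^ (τ + 2) * (2 * k * m ^ 2 + 2 + m ^ 2) := by ring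
      _ ≤ 2 ^ (τ + 2) * ((2 * k + 3) * m ^ 2) := by
          apply Nat.mul_le_mul_left
          nlinarith
  have e2 : 4 * (τ + 2) ≤ 2 ^ (a + 3) := by
    have : τ + 2 ≤ m := by omega
    calc 4 * (τ + 2) ≤ 4 * 2 ^ (a + 1) := by omega
      _ = 2 ^ (a + 3) := by rw [show a + 3 = (a + 1) + 2 by ring, pow_add _ (a + 1)]; ring
  have e3 : 2 * (2 * k + 3) < 2 ^ (2 * k + 4) := by
    have : 2 * k + 3 < 2 ^ (2 * k + 3) := Nat.lt_two_pow_self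
    rw [pow_succ]
    omega
  have e4 : m ^ 2 ≤ 2 ^ (2 * a + 2) := by
    calc m ^ 2 ≤ (2 ^ (a + 1)) ^ 2 := Nat.pow_le_pow_left hma.le 2
      _ = _ := by rw [← pow_mul]; congr 1; ring
  have hm2pos : 0 < m ^ 2 := by positivity
  calc 2 * (1 + (2 * k * m + 1) * (2 * (τ + 1)) + (W m + 1) * 2 ^ (τ + 2)) *
        (4 * (τ + 2)) ^ (τ + 2)
      ≤ 2 * (2 ^ (τ + 2) * ((2 * k + 3) * m ^ 2)) * (2 ^ (a + 3)) ^ (τ + 2) := by
        gcongr
    _ = 2 * (2 * k + 3) * (m ^ 2 * (2 ^ (τ + 2) * (2 ^ (a + 3)) ^ (τ + 2))) := by ring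
    _ < 2 ^ (2 * k + 4) * (m ^ 2 * (2 ^ (τ + 2) * (2 ^ (a + 3)) ^ (τ + 2))) := by
        apply Nat.mul_lt_mul_of_pos_right e3
        positivity
    _ ≤ 2 ^ (2 * k + 4) * (2 ^ (2 * a + 2) * (2 ^ (τ + 2) * (2 ^ (a + 3)) ^ (τ + 2))) := by
        gcongr
    _ = 2 ^ ((2 * k + 4) + ((2 * a + 2) + ((τ + 2) + (a + 3) * (τ + 2)))) := by
        rw [← pow_mul, ← pow_add, ← pow_add, ← pow_add]
    _ ≤ 2 ^ m := by
        apply Nat.pow_le_pow_right (by norm_num)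
        rw [hτ]
        have g1 : (a + 4) * q ≤ 2 * (a * q) := by nlinarith
        have g2 : 12 * (a * q) ≤ m := by linarith [h3, mul_comm a q, (by ring : 12 * q * a = 12 * (a * q))]
        nlinarith

theorem asym2 (c2 c3 k : ℕ) (W : ℕ → ℕ) (hW : Small W) (hk : 2 * c2 + 3 ≤ k) (hk' : c3 + 1 ≤ k) :
    ∃ m0 : ℕ, ∀ m, m0 ≤ m → ∃ τ : ℕ,
    ∀ t d w : ℕ, t ≤ 2 ^ (c3 * m) → d ≤ 2 ^ (c2 * m) → w ≤ 2 ^ (W m) →
    (τ + 2) * 2 ^ (k * m - (τ + 2)) ≤ 2 ^ (k * m) ∧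
    2 * (t * w * (d + 1) ^ (2 * τ + 1)) ≤ (2 ^ (k * m - (τ + 2))) ^ (τ + 1) ∧
    (2 * (((2 ^ (k * m) * (τ + 2) * 2 ^ (k * m - (τ + 2)) + 1) ^ ((t + 1) * (τ + 1)) *
        ((w + 1) ^ (2 ^ (τ + 2))) ^ t : ℕ) : ℝ)) ^ (2 ^ (τ + 1)) *
      (1 - (2 : ℝ) ^ (τ + 1) / (4 * ((τ : ℝ) + 2)) ^ (τ + 2) / 2) ^ (2 ^ (k * m)) < 1 := by
  obtain ⟨m0, hm0⟩ := q3 k c3 W hW
  refine ⟨max m0 1, fun m hm => ?_⟩
  obtain ⟨hA, hB⟩ := hm0 m ((le_max_left _ _).trans hm)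
  have hmpos : 1 ≤ m := (le_max_right _ _).trans hm
  have hq2 : W m < (W m / m + 1) * m := by
    have := Nat.lt_div_mul_add (a := W m) (b := m) (by omega)
    linarith
  obtain ⟨τ, hτ⟩ : ∃ τ, τ = c3 + 1 + W m / m := ⟨_, rfl⟩
  rw [← hτ] at hA hB
  have hWτ : c3 * m + W m ≤ τ * m := by
    rw [hτ]
    nlinarith
  refine ⟨τ, fun t d w ht hd hw => ?_⟩
  have hp1 : (τ + 2) * 2 ^ (k * m - (τ + 2)) ≤ 2 ^ (k * m) := by
    apply AsymAux.p1
    have h3 : 3 * m ≤ k * m := Nat.mul_le_mul_right _ (by omega)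
    omega
  refine ⟨hp1, q2 c2 c3 k τ (W m) m t d w hk hB hWτ ht hd hw, ?_⟩
  -- the third inequality
  set θ : ℝ := (2 : ℝ) ^ (τ + 1) / (4 * ((τ : ℝ) + 2)) ^ (τ + 2) with hθ
  have hθ0 : 0 < θ := by positivity
  have hθ1 : θ ≤ 1 := by
    rw [hθ, div_le_one (by positivity)]
    have hτ0 : (0 : ℝ) ≤ τ := Nat.cast_nonneg τ
    calc (2 : ℝ) ^ (τ + 1) ≤ 2 ^ (τ + 2) := pow_le_pow_right₀ (by norm_num) (by omega)
      _ ≤ (4 * ((τ : ℝ) + 2)) ^ (τ + 2) := pow_le_pow_left₀ (by norm_num) (by linarith) _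
  have hT : 1 ≤ 2 ^ (c3 * m) := Nat.one_le_two_pow
  have hN1 : 2 ^ (k * m) * (τ + 2) * 2 ^ (k * m - (τ + 2)) + 1 ≤ 2 ^ (2 * k * m + 1) := by
    have e1 : 2 ^ (k * m) * (τ + 2) * 2 ^ (k * m - (τ + 2)) ≤ 2 ^ (k * m) * 2 ^ (k * m) := by
      rw [mul_assoc]
      exact Nat.mul_le_mul_left _ hp1
    have e2 : 2 ^ (k * m) * 2 ^ (k * m) = 2 ^ (2 * k * m) := by
      rw [← pow_add]; congr 1; ring
    have e3 : 1 ≤ 2 ^ (2 * k * m) := Nat.one_le_two_pow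
    rw [pow_succ]
    omega
  have hw1 : w + 1 ≤ 2 ^ (W m + 1) := by
    have : 1 ≤ 2 ^ (W m) := Nat.one_le_two_pow
    rw [pow_succ]; omega
  set E : ℕ := 2 ^ (τ + 1) * (1 + (2 * k * m + 1) * (2 * (τ + 1)) + (W m + 1) * 2 ^ (τ + 2)) with hE
  have hbase : (2 * ((2 ^ (k * m) * (τ + 2) * 2 ^ (k * m - (τ + 2)) + 1) ^ ((t + 1) * (τ + 1)) *
        ((w + 1) ^ (2 ^ (τ + 2))) ^ t)) ^ (2 ^ (τ + 1)) ≤ 2 ^ (E * 2 ^ (c3 * m)) := by
    have e1 : (2 ^ (k * m) * (τ + 2) * 2 ^ (k * m - (τ + 2)) + 1) ^ ((t + 1) * (τ + 1)) ≤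
        2 ^ ((2 * k * m + 1) * ((2 ^ (c3 * m) + 1) * (τ + 1))) := by
      rw [pow_mul 2 (2 * k * m + 1)]
      calc _ ≤ (2 ^ (2 * k * m + 1)) ^ ((t + 1) * (τ + 1)) := Nat.pow_le_pow_left hN1 _
        _ ≤ _ := Nat.pow_le_pow_right (Nat.pos_of_ne_zero (by positivity)) (by gcongr)
    have e2 : ((w + 1) ^ (2 ^ (τ + 2))) ^ t ≤
        2 ^ ((W m + 1) * (2 ^ (τ + 2) * 2 ^ (c3 * m))) := by
      rw [← pow_mul, pow_mul 2 (W m + 1)]
      calc _ ≤ (2 ^ (W m + 1)) ^ (2 ^ (τ + 2) * t) := Nat.pow_le_pow_left hw1 _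
        _ ≤ _ := Nat.pow_le_pow_right (Nat.pos_of_ne_zero (by positivity)) (by gcongr)
    calc _ ≤ (2 * (2 ^ ((2 * k * m + 1) * ((2 ^ (c3 * m) + 1) * (τ + 1))) *
          2 ^ ((W m + 1) * (2 ^ (τ + 2) * 2 ^ (c3 * m))))) ^ (2 ^ (τ + 1)) := by
          gcongr
      _ = 2 ^ ((1 + ((2 * k * m + 1) * ((2 ^ (c3 * m) + 1) * (τ + 1)) +
          (W m + 1) * (2 ^ (τ + 2) * 2 ^ (c3 * m)))) * 2 ^ (τ + 1)) := by
          rw [← pow_add, ← pow_succ', ← pow_mul]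
          congr 2; ring
      _ ≤ _ := by
          apply Nat.pow_le_pow_right (by norm_num)
          have f2 : (2 * k * m + 1) * ((2 ^ (c3 * m) + 1) * (τ + 1)) ≤
              ((2 * k * m + 1) * (2 * (τ + 1))) * 2 ^ (c3 * m) := by
            calc (2 * k * m + 1) * ((2 ^ (c3 * m) + 1) * (τ + 1))
                ≤ (2 * k * m + 1) * ((2 * 2 ^ (c3 * m)) * (τ + 1)) := by
                  gcongr
                  omega
              _ = _ := by ring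
          calc (1 + ((2 * k * m + 1) * ((2 ^ (c3 * m) + 1) * (τ + 1)) +
                (W m + 1) * (2 ^ (τ + 2) * 2 ^ (c3 * m)))) * 2 ^ (τ + 1)
              ≤ (2 ^ (c3 * m) + (((2 * k * m + 1) * (2 * (τ + 1))) * 2 ^ (c3 * m) +
                (W m + 1) * (2 ^ (τ + 2) * 2 ^ (c3 * m)))) * 2 ^ (τ + 1) := by
                gcongr
            _ = E * 2 ^ (c3 * m) := by rw [hE]; ring
  have hcast : (2 * (((2 ^ (k * m) * (τ + 2) * 2 ^ (k * m - (τ + 2)) + 1) ^ ((t + 1) * (τ + 1)) *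
        ((w + 1) ^ (2 ^ (τ + 2))) ^ t : ℕ) : ℝ)) ^ (2 ^ (τ + 1)) ≤
      (2 : ℝ) ^ (E * 2 ^ (c3 * m)) := by
    have := (Nat.cast_le (α := ℝ)).2 hbase
    rw [Nat.cast_pow, Nat.cast_mul 2] at this
    exact_mod_cast this
  have hθ2 : 0 ≤ 1 - θ / 2 := by linarith
  have hexp1 : (2 : ℝ) ^ (E * 2 ^ (c3 * m)) ≤ Real.exp ((E * 2 ^ (c3 * m) : ℕ) : ℝ) := by
    rw [← Real.exp_one_pow]
    apply pow_le_pow_left₀ (by norm_num)
    have := Real.exp_one_gt_d9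
    linarith
  have hexp2 : (1 - θ / 2) ^ (2 ^ (k * m)) ≤ Real.exp (-(θ / 2 * 2 ^ (k * m))) := by
    have h1 : 1 - θ / 2 ≤ Real.exp (-(θ / 2)) := by
      have := Real.add_one_le_exp (-(θ / 2))
      linarith
    calc (1 - θ / 2) ^ (2 ^ (k * m)) ≤ (Real.exp (-(θ / 2))) ^ (2 ^ (k * m)) :=
          pow_le_pow_left₀ hθ2 h1 _
      _ = Real.exp (-(θ / 2 * 2 ^ (k * m))) := by
          rw [← Real.exp_nat_mul]
          congr 1
          push_cast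
          ring
  have hfin : ((E * 2 ^ (c3 * m) : ℕ) : ℝ) < θ / 2 * 2 ^ (k * m) := by
    push_cast
    have g1 : (2 : ℝ) ^ m * 2 ^ (c3 * m) ≤ 2 ^ (k * m) := by
      rw [← pow_add]
      apply pow_le_pow_right₀ (by norm_num)
      nlinarith
    have g2 : (0 : ℝ) < 2 ^ (c3 * m) := by positivity
    have g3 : (E : ℝ) < θ / 2 * 2 ^ m := by
      rw [hθ, div_div, div_mul_eq_mul_div, lt_div_iff₀ (by positivity)]
      have hA' : ((2 * (1 + (2 * k * m + 1) * (2 * (τ + 1)) + (W m + 1) * 2 ^ (τ + 2)) *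
        (4 * (τ + 2)) ^ (τ + 2) : ℕ) : ℝ) < ((2 ^ m : ℕ) : ℝ) := Nat.cast_lt.2 hA
      have hp : (0 : ℝ) < 2 ^ (τ + 1) := by positivity
      have h7 := mul_lt_mul_of_pos_left hA' hp
      rw [hE]
      push_cast at h7 ⊢
      calc _ = (2 : ℝ) ^ (τ + 1) * (2 * (1 + (2 * k * m + 1) * (2 * (τ + 1)) +
            (W m + 1) * 2 ^ (τ + 2)) * (4 * (τ + 2)) ^ (τ + 2)) := by ring
        _ < _ := h7
    calc (E : ℝ) * 2 ^ (c3 * m) < (θ / 2 * 2 ^ m) * 2 ^ (c3 * m) :=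
          mul_lt_mul_of_pos_right g3 g2
      _ = θ / 2 * (2 ^ m * 2 ^ (c3 * m)) := by ring
      _ ≤ θ / 2 * 2 ^ (k * m) := by gcongr
  calc _ ≤ Real.exp ((E * 2 ^ (c3 * m) : ℕ) : ℝ) * Real.exp (-(θ / 2 * 2 ^ (k * m))) := by
        apply mul_le_mul (hcast.trans hexp1) hexp2 (by positivity) (by positivity)
    _ = Real.exp (((E * 2 ^ (c3 * m) : ℕ) : ℝ) - θ / 2 * 2 ^ (k * m)) := by
        rw [← Real.exp_add]
        congr 1
    _ < 1 := by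
        rw [Real.exp_lt_one_iff]
        linarith

end Pool.Agent.Lib.Pf91712g
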