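import Pool.Agent.Lib.Pf91712.Mach
import Pool.Agent.Lib.Pf91712g.Emb
import Pool.Agent.Lib.Pf91712g.Num

/-!
# The one-stage lower bound

`Pf91712.mach` with the guess length `h k * L ⌊log₂ n⌋`, `L m = o(m² / log m)`: `w = 2 ^ W m` with
`W m = Hm * max L` over `[0, (c + 2) m]`, and the number of players grows with `m`.
-/

set_option autoImplicit false

namespace Pool.Agent.Lib.Pf91712g

open Pool.Agent.Lib.Pa76659 (Str Lang Prog Halts accepts join DT)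
open Pool.Agent.Lib.Pf91712

open MachAux in
theorem machL (L : ℕ → ℕ) (hL : Small L) (M' M : Prog) (f h : ℕ → ℕ) (c' c a g k : ℕ)
    (hk : 2 * ((c + 2) * c' + 1) + 3 + (c + 2) ≤ k) : ∃ m0 : ℕ, ∀ m, m0 ≤ m →
    ∀ O0 : Lang, ∃ O : Lang,
      (∀ s, (∀ u v : Str, u.length = k * m → v.length = k * m → s ≠ code m k u v) →
        O s = O0 s) ∧
      ¬ (SigmaTwo O (List.replicate (2 ^ m) true) k ↔
        accepts (join O (bitsOf (Pf91712g.cnt L O M' f h c') g)) M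
          (inp3 (List.replicate (2 ^ m) true) k []) (a * (2 ^ m + 1) ^ c) = true) := by
  obtain ⟨Fm, hFm⟩ : ∃ Fm : ℕ, Fm = ∑ i ∈ Finset.range (g + 1), f i := ⟨_, rfl⟩
  obtain ⟨Hm, hHm⟩ : ∃ Hm : ℕ, Hm = ∑ i ∈ Finset.range (g + 1), h i := ⟨_, rfl⟩
  obtain ⟨m1, hm1⟩ := mnum a c c' k Fm 1
  obtain ⟨m2, hm2⟩ := asym2 ((c + 2) * c' + 1) (c + 1) k
    (fun m => Hm * (Finset.range ((c + 2) * m + 1)).sup L)
    (small_sup L hL Hm (c + 2) (by omega)) (by omega) (by omega)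
  refine ⟨max m1 m2, fun m hm O0 => ?_⟩
  obtain ⟨n1, n2, n3⟩ := hm1 m ((le_max_left _ _).trans hm)
  obtain ⟨τ, hτ⟩ := hm2 m ((le_max_right _ _).trans hm)
  obtain ⟨w, hw⟩ : ∃ w, w = 2 ^ (Hm * (Finset.range ((c + 2) * m + 1)).sup L) := ⟨_, rfl⟩
  obtain ⟨a1, a2, a3⟩ := hτ _ _ w n1 n2 hw.le
  obtain ⟨t, ht⟩ : ∃ t : ℕ, t = a * (2 ^ m + 1) ^ c := ⟨_, rfl⟩
  obtain ⟨B, hB⟩ : ∃ B : ℕ, B = 2 ^ m + k + a * (2 ^ m + 1) ^ c := ⟨_, rfl⟩
  have hlogB : Nat.log 2 B ≤ (c + 2) * m := by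
    have h1 := (Nat.pow_le_pow_iff_right (by norm_num : 1 < 2)).1 n3
    rw [← hB] at h1
    simpa using h1
  rw [← hB, ← ht] at a2
  rw [← ht] at a3
  rw [← ht]
  obtain ⟨sub, hsub1, hsub2, hsub3⟩ := emb1 m k (τ + 2) (2 ^ (k * m - (τ + 2))) a1 O0
  have hw' : ∀ k', k' ≤ g → ∀ y : Str, y.length ≤ B →
      2 ^ (h k' * L (Nat.log 2 y.length)) ≤ w := by
    intro k' hk' y hy
    rw [hw]
    apply Nat.pow_le_pow_right (by norm_num)
    apply Nat.mul_le_mul (hHm ▸ le_sum h hk')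
    apply Finset.le_sup (f := L)
    rw [Finset.mem_range]
    have := (Nat.log_mono_right (b := 2) hy).trans hlogB
    omega
  obtain ⟨cq, hcq1, hcq2⟩ := emb L sub hsub1 M' f h c' g B Fm (Fm * (B + 1) ^ c' + 1)
    w (fun k' hk' => hFm ▸ le_sum f hk') (Nat.le_add_left _ _) (Nat.le_succ _)
    (by rw [hw]; positivity) hw'
  have hdep := Pa76659.accTree_depth M (inp3 (List.replicate (2 ^ m) true) k []) t
  have hqin := Pa76659.accTree_qin M (inp3 (List.replicate (2 ^ m) true) k []) t _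
    (inp3_bdd (List.replicate (2 ^ m) true) k)
  rw [List.length_replicate] at hqin
  obtain ⟨ζ, hζ⟩ := core (ρ := Fin (2 ^ (k * m))) cq hcq1
    (Pa76659.accTree M (inp3 (List.replicate (2 ^ m) true) k []) t) hdep (by positivity) a2
    (by rw [Fintype.card_fin]; exact a3)
  refine ⟨fun s => (sub s).eval ζ, fun s hs => hsub2 s hs ζ, ?_⟩
  have h1 : (Pa76659.accTree M (inp3 (List.replicate (2 ^ m) true) k []) t).eval
      (fun p => (cq p).val ζ) =
      accepts (join (fun s => (sub s).eval ζ)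
        (bitsOf (Pf91712g.cnt L (fun s => (sub s).eval ζ) M' f h c') g))
        M (inp3 (List.replicate (2 ^ m) true) k []) t := by
    rw [← Pa76659.accTree_eval]
    refine DT.eval_congr (S := {v : Str | v.length ≤ 2 ^ m + k + t}) (fun v hv => ?_) hqin
    refine hcq2 ζ v ?_
    rw [hB, ← ht]
    exact hv
  rw [hsub3 ζ]
  rw [h1] at hζ
  exact fun h2 => hζ h2.symm

end Pool.Agent.Lib.Pf91712g
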