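import Pool.Agent.Lib.Pf91712.Diag
import Pool.Agent.Lib.Pf91712g.Mach
import Pool.Agent.Lib.Pf91712g.Loc

/-!
# Diagonalisation

`Pf91712.diag` for a countable family of guess lengths.
-/

set_option autoImplicit false

namespace Pool.Agent.Lib.Pf91712g

open Pool.Agent.Lib.Pa76659 (Str Lang Prog Halts accepts join DT)
open Pool.Agent.Lib.Pf91712

/-- The computation disagrees with the problem at `1^(2^m)`. -/
def BadL (L : ℕ → ℕ) (M' M : Prog) (f h : ℕ → ℕ) (c' c a g k m : ℕ) (O : Lang) : Prop :=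
  ¬ (SigmaTwo O (List.replicate (2 ^ m) true) k ↔
    accepts (join O (bitsOf (Pf91712g.cnt L O M' f h c') g)) M
      (inp3 (List.replicate (2 ^ m) true) k []) (a * (2 ^ m + 1) ^ c) = true)

theorem step_oneL (L : ℕ → ℕ) (hL : Small L) (M' M : Prog) (f h : ℕ → ℕ) (c' c a g k : ℕ)
    (O0 : Lang) (N : ℕ) :
    ∃ (O1 : Lang) (Λ : ℕ), N ≤ Λ ∧ (∀ v : Str, v.length < N → O1 v = O0 v) ∧
      ∀ O' : Lang, (∀ v : Str, v.length < Λ → O' v = O1 v) →
        (2 * ((c + 2) * c' + 1) + 3 + (c + 2) ≤ k → ∃ m, BadL L M' M f h c' c a g k m O') := by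
  by_cases hk : 2 * ((c + 2) * c' + 1) + 3 + (c + 2) ≤ k
  · obtain ⟨m0, hm0⟩ := machL L hL M' M f h c' c a g k hk
    obtain ⟨O1, h1, h2⟩ := hm0 (max m0 N) (le_max_left _ _) O0
    obtain ⟨Λ, hΛ⟩ := locL L M' M f h c' c a g k (max m0 N)
    refine ⟨O1, max N (Λ + 1), le_max_left _ _, ?_, ?_⟩
    · intro v hv
      apply h1
      intro u w _ _ hc
      have := code_len (max m0 N) k u w
      rw [← hc] at this
      have h3 := le_max_right m0 N
      omega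
    · intro O' hO' _
      refine ⟨max m0 N, ?_⟩
      have h3 := hΛ O' O1 (fun v hv => hO' v (by
        have := le_max_right N (Λ + 1)
        omega))
      intro hc
      exact h2 (h3.1 hc)
  · exact ⟨O0, N, le_rfl, fun _ _ => rfl, fun _ _ h => absurd h hk⟩

theorem cntL_congr {L : ℕ → ℕ} {O : Lang} {M : Prog} {f f' h h' : ℕ → ℕ} {c : ℕ} {x : Str} {k : ℕ}
    (hf : f k = f' k) (hh : h k = h' k) :
    Pf91712g.cnt L O M f h c x k = Pf91712g.cnt L O M f' h' c x k := by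
  unfold Pf91712g.cnt
  rw [hf, hh]

theorem diagL (L : ℕ → ℕ → ℕ) (hL : ∀ i, Small (L i)) :
    ∃ O : Lang, ∀ i, ∀ F ∈ SharpL (L i) O, ∀ c : ℕ, ∃ K : ℕ, ∀ k, K ≤ k →
    ∀ (M : Prog) (a g : ℕ), ¬ Solves O F (SigmaTwo O) M a g c k := by
  classical
  have hne : Nonempty (ℕ × Ix) := ⟨(0, (Prog.skip, Prog.skip), (0, 0), (0, 0), (0, 0, 0))⟩
  obtain ⟨e, he⟩ := exists_surjective_nat (ℕ × Ix)
  obtain ⟨O, hO⟩ := fin_limit
    (fun n O => 2 * (((e n).2.2.2.1.2 + 2) * (e n).2.2.2.1.1 + 1) + 3 + ((e n).2.2.2.1.2 + 2) ≤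
        (e n).2.2.2.2.2.2 →
      ∃ m, BadL (L (e n).1) (e n).2.1.1 (e n).2.1.2 (e n).2.2.1.1 (e n).2.2.1.2 (e n).2.2.2.1.1
        (e n).2.2.2.1.2 (e n).2.2.2.2.1 (e n).2.2.2.2.2.1 (e n).2.2.2.2.2.2 m O)
    (fun n O0 N => step_oneL _ (hL _) _ _ _ _ _ _ _ _ _ O0 N)
  refine ⟨O, ?_⟩
  rintro i F ⟨M', f, h, c', hF⟩ c
  refine ⟨2 * ((c + 2) * c' + 1) + 3 + (c + 2), fun k hk M a g hS => ?_⟩
  obtain ⟨n, hn⟩ := he (i, (M', M), (cut f g, cut h g), (c', c), (a, g, k))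
  have h1 := hO n
  rw [hn] at h1
  obtain ⟨m, hm⟩ := h1 hk
  apply hm
  have h2 := (hS (List.replicate (2 ^ m) true)).2
  rw [List.length_replicate] at h2
  have h3 : bitsOf F g = bitsOf (Pf91712g.cnt (L i) O M' (cut f g) (cut h g) c') g := by
    apply bits_congr
    intro x k' hk'
    rw [(hF x k').2]
    exact cntL_congr (cut_apply f g k' hk').symm (cut_apply h g k' hk').symm
  rw [h3] at h2
  exact h2

end Pool.Agent.Lib.Pf91712g
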